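import Mathlib

/-!
Comparison of degrees in `K[X]` by an injection between fibres, written with one universal
quantifier.
-/

set_option autoImplicit false

namespace Pool.Agent.MP_d395f7_lc.H51

open Polynomial

section Formula

variable {A : Type*} [CommRing A]

/-- Conjunction of two equations. -/
def an (t p q : A) : A := p ^ 2 - t * q ^ 2

/-- The equation which says that `x` is zero or a unit. -/
def cs (x y : A) : A := x * (x * y - 1)

/-- The matrix of the formula for `deg G < deg F`. -/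
def E0 (t F G u c c' r a a' b b' v v' h₂ h h₅ e : A) : A :=
  an t (cs c c') (an t (cs a a') (an t (cs b b') (an t (cs v v') (an t (u - (c + t * r))
    (an t (r - v - (t - a) * h₂)
      (an t (F - c - (t - a) * (t - b) * h) (r - v - (t - b) * h₅) *
        an t (F - c - (t - a) * h) ((G - c - (t - v) * h₅) * e - 1)))))))

/-- The same with the witnesses collected in a vector. -/
def E1 (t F G u : A) (z : Fin 13 → A) : A :=
  E0 t F G u (z 0) (z 1) (z 2) (z 3) (z 4) (z 5) (z 6) (z 7) (z 8) (z 9) (z 10) (z 11) (z 12)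

/-- A polynomial of degree `deg p + 2` with derivative `1` at the origin. -/
def sh (t p : A) : A := t ^ 2 * p + t

/-- The matrix of the formula for `deg f = deg g`. -/
def E2 (t f g u : A) (z : Fin (13 + 13) → A) : A :=
  an t (E1 t (sh t (t * g + 1)) (sh t f) u fun i => z (Fin.castAdd 13 i))
    (E1 t (sh t (t * f + 1)) (sh t g) u fun i => z (Fin.natAdd 13 i))

lemma map_E2 {B : Type*} [CommRing B] (φ : A →+* B) (t f g u : A) (z : Fin (13 + 13) → A) :
    φ (E2 t f g u z) = E2 (φ t) (φ f) (φ g) (φ u) fun i => φ (z i) := by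
  simp only [E2, E1, E0, an, cs, sh, map_sub, map_mul, map_add, map_pow, map_one]

end Formula

variable {K : Type*} [Field K]

lemma an_zero (p q : K[X]) : an X p q = 0 ↔ p = 0 ∧ q = 0 := by
  refine ⟨fun h => ?_, fun h => by simp [an, h.1, h.2]⟩
  have h1 : p ^ 2 = X * q ^ 2 := sub_eq_zero.1 h
  have hq : q = 0 := by
    by_contra hq
    have h2 := congrArg natDegree h1
    rw [natDegree_pow, natDegree_X_mul (pow_ne_zero 2 hq), natDegree_pow] at h2
    omega
  rw [hq] at h1
  exact ⟨by simpa using h1, hq⟩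

lemma cs_const {x y : K[X]} (h : cs x y = 0) : ∃ c, x = C c := by
  rcases mul_eq_zero.1 h with h | h
  · exact ⟨0, by simp [h]⟩
  · obtain ⟨c, _, hc⟩ := Polynomial.isUnit_iff.1 (IsUnit.of_mul_eq_one y (sub_eq_zero.1 h))
    exact ⟨c, hc.symm⟩

lemma cs_C (c : K) : cs (C c) (C c⁻¹) = 0 := by
  by_cases h : c = 0
  · simp [cs, h]
  · rw [cs, ← C_mul, mul_inv_cancel₀ h]
    simp

/-- The polynomial `r` does not map the fibre of `F` over `c`, counted with multiplicity,
injectively into the fibre of `G` over `c`. -/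
def Bad (F G : K[X]) (c : K) (r : K[X]) : Prop :=
  ∃ a b : K, ((X - C a) * (X - C b) ∣ F - C c ∧ r.eval a = r.eval b) ∨
    (F.eval a = c ∧ G.eval (r.eval a) ≠ c)

lemma root_iff (p : K[X]) (a c : K) : (∃ h, p - C c - (X - C a) * h = 0) ↔ p.eval a = c := by
  constructor
  · rintro ⟨h, e⟩
    have h1 := congrArg (eval a) e
    simpa [sub_eq_zero] using h1
  · intro e
    obtain ⟨h, hh⟩ : X - C a ∣ p - C c := dvd_iff_isRoot.2 (by simp [e])
    exact ⟨h, sub_eq_zero.2 hh⟩

lemma E1_iff (F G u : K[X]) :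
    (∃ z : Fin 13 → K[X], E1 X F G u z = 0) ↔ Bad F G (u.coeff 0) u.divX := by
  constructor
  · rintro ⟨z, hz⟩
    simp only [E1, E0, an_zero, mul_eq_zero] at hz
    obtain ⟨h1, h2, h3, h4, h5, h6, h7⟩ := hz
    obtain ⟨c, hc⟩ := cs_const h1
    obtain ⟨a, ha⟩ := cs_const h2
    obtain ⟨b, hb⟩ := cs_const h3
    obtain ⟨v, hv⟩ := cs_const h4
    rw [hc] at h5
    rw [hc, ha, hb, hv] at h7
    rw [ha, hv] at h6
    have hu : u = C c + X * z 2 := sub_eq_zero.1 h5
    have e1 : u.coeff 0 = c := by simp [hu]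
    have e2 : u.divX = z 2 := by
      have h8 := u.X_mul_divX_add
      rw [e1] at h8
      apply mul_left_cancel₀ (X_ne_zero (R := K))
      rw [hu] at h8 ⊢
      linear_combination h8
    rw [e1, e2]
    have e3 := (root_iff _ a v).1 ⟨_, h6⟩
    refine ⟨a, b, ?_⟩
    rcases h7 with ⟨h7, h8⟩ | ⟨h7, h8⟩
    · exact Or.inl ⟨⟨_, sub_eq_zero.1 h7⟩, e3.trans ((root_iff _ b v).1 ⟨_, h8⟩).symm⟩
    · refine Or.inr ⟨(root_iff _ a c).1 ⟨_, h7⟩, fun h9 => ?_⟩
      have h10 := congrArg (eval v) h8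
      rw [e3] at h9
      simp [h9] at h10
  · rintro ⟨a, b, hb⟩
    set c := u.coeff 0 with hc
    set r := u.divX with hr
    have hu : u - (C c + X * r) = 0 := by
      have h8 := u.X_mul_divX_add
      linear_combination -h8
    obtain ⟨h₂, e₂⟩ := (root_iff r a (r.eval a)).2 rfl
    have key : ∀ h h₅ e : K[X], ((F - C c - (X - C a) * (X - C b) * h = 0 ∧
        r - C (r.eval a) - (X - C b) * h₅ = 0) ∨ (F - C c - (X - C a) * h = 0 ∧
        (G - C c - (X - C (r.eval a)) * h₅) * e - 1 = 0)) →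
        ∃ z : Fin 13 → K[X], E1 X F G u z = 0 := by
      intro h h₅ e H
      refine ⟨![C c, C c⁻¹, r, C a, C a⁻¹, C b, C b⁻¹, C (r.eval a), C (r.eval a)⁻¹, h₂, h, h₅, e],
        ?_⟩
      change E0 X F G u (C c) (C c⁻¹) r (C a) (C a⁻¹) (C b) (C b⁻¹) (C (r.eval a))
        (C (r.eval a)⁻¹) h₂ h h₅ e = 0
      simp only [E0, an_zero, mul_eq_zero]
      exact ⟨cs_C _, cs_C _, cs_C _, cs_C _, hu, e₂, H⟩
    rcases hb with ⟨⟨h, e⟩, e'⟩ | ⟨e, e'⟩
    · obtain ⟨h₅, e₅⟩ := (root_iff r b (r.eval a)).2 e'.symm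
      exact key h h₅ 0 (Or.inl ⟨sub_eq_zero.2 e, e₅⟩)
    · obtain ⟨h, e₁⟩ := (root_iff F a c).2 e
      obtain ⟨h₅, e₅⟩ := (root_iff G (r.eval a) _).2 rfl
      refine key h h₅ (C (G.eval (r.eval a) - c)⁻¹) (Or.inr ⟨e₁, ?_⟩)
      have e₆ : G - C c - (X - C (r.eval a)) * h₅ = C (G.eval (r.eval a) - c) := by
        rw [C_sub]
        linear_combination e₅
      rw [e₆, ← C_mul, mul_inv_cancel₀ (sub_ne_zero.2 e')]
      simp

lemma sub_ne {F : K[X]} (hF : derivative F ≠ 0) (c : K) : F - C c ≠ 0 := fun h => by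
  rw [sub_eq_zero.1 h] at hF
  simp at hF

open Classical in
lemma card_fibre [IsAlgClosed K] {F : K[X]} (hF : derivative F ≠ 0) (c : K)
    (h : ∀ a, ¬ (X - C a) * (X - C a) ∣ F - C c) :
    (F - C c).roots.toFinset.card = F.natDegree := by
  rw [Multiset.toFinset_card_of_nodup, IsAlgClosed.card_roots_eq_natDegree, natDegree_sub_C]
  rw [Multiset.nodup_iff_count_le_one]
  intro a
  rw [count_roots, rootMultiplicity_le_iff (sub_ne hF c), pow_succ, pow_one]
  exact h a

open Classical in
lemma mem_fibre {F : K[X]} (hF : derivative F ≠ 0) (c a : K) :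
    a ∈ (F - C c).roots.toFinset ↔ F.eval a = c := by
  rw [Multiset.mem_toFinset, mem_roots (sub_ne hF c)]
  simp [sub_eq_zero]

lemma crit {F : K[X]} {a c : K} (h : (X - C a) * (X - C a) ∣ F - C c) :
    F.eval a = c ∧ (derivative F).eval a = 0 := by
  obtain ⟨q, hq⟩ := h
  have h1 := congrArg (eval a) hq
  have h2 := congrArg (fun p => eval a (derivative p)) hq
  exact ⟨by simpa [sub_eq_zero] using h1, by simpa using h2⟩

lemma lt_iff [IsAlgClosed K] {F G : K[X]} (hF : derivative F ≠ 0) (hG : derivative G ≠ 0) :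
    G.natDegree < F.natDegree ↔ ∀ c r, Bad F G c r := by
  classical
  constructor
  · intro hlt c r
    by_contra hb
    simp only [Bad, not_exists, not_or, not_and, not_not] at hb
    have h1 := card_fibre hF c fun a h => (hb a a).1 h rfl
    have h2 : (F - C c).roots.toFinset.card ≤ (G - C c).roots.toFinset.card := by
      refine Finset.card_le_card_of_injOn (fun a => r.eval a) (fun a ha => ?_) ?_
      · exact (mem_fibre hG c _).2 ((hb a a).2 ((mem_fibre hF c a).1 ha))
      · intro a ha b hb' hab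
        by_contra hne
        refine (hb a b).1 ((isCoprime_X_sub_C_of_isUnit_sub (sub_ne_zero.2 hne).isUnit).mul_dvd
          (dvd_iff_isRoot.2 ?_) (dvd_iff_isRoot.2 ?_)) hab
        · simp [(mem_fibre hF c a).1 ha]
        · simp [(mem_fibre hF c b).1 hb']
    have h3 := (Multiset.toFinset_card_le (G - C c).roots).trans (card_roots' _)
    rw [natDegree_sub_C] at h3
    omega
  · intro H
    by_contra hle
    obtain ⟨c, hc⟩ := Infinite.exists_notMem_finset
      ((derivative F).roots.toFinset.image (fun a => F.eval a) ∪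
        (derivative G).roots.toFinset.image (fun a => G.eval a))
    have good : ∀ P : K[X], derivative P ≠ 0 →
        c ∉ (derivative P).roots.toFinset.image (fun a => P.eval a) →
        ∀ a, ¬ (X - C a) * (X - C a) ∣ P - C c := fun P hP h a hd =>
      h (Finset.mem_image.2 ⟨a, Multiset.mem_toFinset.2 ((mem_roots hP).2 (crit hd).2),
        (crit hd).1⟩)
    rw [Finset.mem_union, not_or] at hc
    have gF := good F hF hc.1
    have h1 := card_fibre hF c gF
    have h2 := card_fibre hG c (good G hG hc.2)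
    obtain ⟨φ, hφ, hinj⟩ := Set.Finite.exists_injOn_of_encard_le
      (s := ((F - C c).roots.toFinset : Set K)) (t := ((G - C c).roots.toFinset : Set K))
      (Finset.finite_toSet _) (by
        rw [Set.encard_coe_eq_coe_finsetCard, Set.encard_coe_eq_coe_finsetCard, h1, h2]
        exact_mod_cast not_lt.1 hle)
    have hr : ∀ a, F.eval a = c →
        (Lagrange.interpolate (F - C c).roots.toFinset id φ).eval a = φ a := fun a ha =>
      Lagrange.eval_interpolate_at_node φ (Set.injOn_id _) ((mem_fibre hF c a).2 ha)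
    obtain ⟨a, b, ⟨h3, h4⟩ | ⟨h3, h4⟩⟩ := H c (Lagrange.interpolate (F - C c).roots.toFinset id φ)
    · have ha : F.eval a = c := by
        simpa [sub_eq_zero] using dvd_iff_isRoot.1 ((dvd_mul_right _ _).trans h3)
      have hb : F.eval b = c := by
        simpa [sub_eq_zero] using dvd_iff_isRoot.1 ((dvd_mul_left _ _).trans h3)
      rw [hr a ha, hr b hb] at h4
      have h5 := hinj ((mem_fibre hF c a).2 ha) ((mem_fibre hF c b).2 hb) h4
      subst h5
      exact gF a h3
    · rw [hr a h3] at h4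
      exact h4 ((mem_fibre hG c _).1 (hφ ((mem_fibre hF c a).2 h3)))

lemma sh_der (p : K[X]) : derivative (sh X p) ≠ 0 := fun h => by
  have h1 := congrArg (eval 0) h
  simp [sh] at h1

lemma sh_deg {p : K[X]} (hp : p ≠ 0) : (sh X p).natDegree = p.natDegree + 2 := by
  have h1 : (X ^ 2 * p).natDegree = p.natDegree + 2 := natDegree_X_pow_mul 2 hp
  rw [sh, natDegree_add_eq_left_of_natDegree_lt, h1]
  rw [h1, natDegree_X]
  omega

lemma one_ne (g : K[X]) : X * g + 1 ≠ 0 := fun h => by
  have h1 := congrArg (eval 0) h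
  simp at h1

lemma le_iff (f g : K[X]) :
    (sh X f).natDegree < (sh X (X * g + 1)).natDegree ↔ f.degree ≤ g.degree := by
  rw [sh_deg (one_ne g)]
  by_cases hf : f = 0
  · simp [hf, sh]
  rw [sh_deg hf]
  by_cases hg : g = 0
  · simp [hg, hf]
  have h1 : (X * g + 1).natDegree = g.natDegree + 1 := by
    rw [← C_1, natDegree_add_C, natDegree_X_mul hg]
  rw [h1, degree_eq_natDegree hf, degree_eq_natDegree hg, Nat.cast_le]
  omega

lemma le_formula [IsAlgClosed K] (f g : K[X]) : f.degree ≤ g.degree ↔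
    ∀ u, ∃ z : Fin 13 → K[X], E1 X (sh X (X * g + 1)) (sh X f) u z = 0 := by
  rw [← le_iff, lt_iff (sh_der _) (sh_der _)]
  simp only [E1_iff]
  refine ⟨fun h u => h _ _, fun h c r => ?_⟩
  have h1 := h (X * r + C c)
  have h2 : (X * r + C c).divX = r := by
    ext n
    simp [coeff_divX]
  rw [h2] at h1
  simpa using h1

theorem eq_formula [IsAlgClosed K] (f g : K[X]) : f.degree = g.degree ↔
    ∀ u, ∃ z : Fin (13 + 13) → K[X], E2 X f g u z = 0 := by
  rw [le_antisymm_iff, le_formula, le_formula, ← forall_and]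
  refine forall_congr' fun u => ?_
  simp only [E2, an_zero]
  constructor
  · rintro ⟨⟨z₁, h₁⟩, z₂, h₂⟩
    exact ⟨Fin.append z₁ z₂, by simpa only [Fin.append_left] using h₁,
      by simpa only [Fin.append_right] using h₂⟩
  · rintro ⟨z, h₁, h₂⟩
    exact ⟨⟨_, h₁⟩, _, h₂⟩

end Pool.Agent.MP_d395f7_lc.H51
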